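import Pool.Agent.Helper3.TP.St
import Pool.Agent.Helper3.TL.M_START1
import Pool.Agent.Helper80.TL.M_FAM1
import Pool.Agent.Helper80.TL.M_FAM2
import Pool.Agent.Helper80.TL.M_FAR1

/-! Project TP (MP_86d903), module FP (helper8). -/

set_option autoImplicit false

open Finset
open MP86d903 (Valid Lit inside mem_inside pt flip Clause Ineq clauseIneq vsF ngF)
open Helper80.SR (Exp Closed Cl Sm)
open Helper3.TL Helper3.TP

namespace Helper8.TP

section
variable {ι V : Type} [DecidableEq ι] [Fintype ι] [DecidableEq V] [Fintype V]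
  {vs ng : ι → Finset V} {q D κ : ℕ} {A : Finset V}

/-- Indices outside `A` whose class meets a given set. -/
theorem card_meet (hE : Env vs q D κ A) (hκ : 3 ≤ κ) (Z U : Finset V)
    (hU : ∀ i ∈ U, i ∉ A ∧ ¬ Disjoint (Cl vs q (insert i A) \ A) Z) :
    U.card ≤ Z.card * 3 := by
  obtain ⟨c1, -⟩ := Helper80.TL.hFam2 ι V vs q D κ A hE
  have hAc : Closed vs q A := hE.closed'
  have hA0 : (A \ A).card ≤ κ := by simp
  have hsub : U ⊆ Z.biUnion (fun j => Cl vs q (insert j A) \ A) := by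
    intro i hi
    obtain ⟨hiA, h1⟩ := hU i hi
    rw [Finset.not_disjoint_iff] at h1
    obtain ⟨j, hj1, hj2⟩ := h1
    have h2 := c1 A i j (subset_refl A) hAc hA0 (mem_sdiff.mp hj1).1 (mem_sdiff.mp hj1).2
    refine mem_biUnion.mpr ⟨j, hj2, mem_sdiff.mpr ⟨?_, hiA⟩⟩
    rw [h2]
    exact mem_cl_insert i A
  exact (card_le_card hsub).trans (card_biUnion_le_card_mul _ _ 3
    (fun j _ => card_class_le hClo1 hE j hκ))

theorem not_mem_near {α : Type} [DecidableEq α] {X N W : Finset α} (h1 : X ⊆ N)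
    (h2 : Disjoint W N) {i : α} (h3 : i ∈ X) (h4 : i ∈ W) : False :=
  Finset.disjoint_left.mp h2 h4 (h1 h3)

/-- The class sum of the complementary extension. -/
theorem sum_flip (hE : Env vs q D κ A) {ρ σ₁ : V → Bool} {R₁ : Finset V} {K : ℕ} (a : V → ℤ)
    (h : Ext vs ng q A K A ρ R₁ σ₁) :
    Ext vs ng q A K A ρ R₁ (flip A σ₁) ∧
      ∑ j ∈ R₁ \ A, a j * sg (flip A σ₁ j) = -∑ j ∈ R₁ \ A, a j * sg (σ₁ j) := by
  obtain ⟨-, t2, -, -, t5, -⟩ := Helper80.TL.hFam1 ι V vs ng q D κ A hE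
  have h1 := t2 _ _ _ _ _ h
  refine ⟨h1, ?_⟩
  have h2 := (t5 _ _ _ _ _ a 0 h1).1
  have h3 := (t5 _ _ _ _ _ a 0 h).2
  rw [h3] at h2
  linarith

end

theorem sum_copies (k : ℕ) (α : List (ℕ × Bool)) (F : ℕ × Bool → ℤ) :
    (((List.replicate k α).flatten).map F).sum = k * (α.map F).sum := by
  induction k with
  | zero => simp
  | succ k ih =>
    rw [List.replicate_succ, List.flatten_cons, List.map_append, List.sum_append, ih]
    push_cast
    ring

theorem length_copies (k : ℕ) (α : List (ℕ × Bool)) :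
    ((List.replicate k α).flatten).length = k * α.length := by
  induction k with
  | zero => simp
  | succ k ih =>
    rw [List.replicate_succ, List.flatten_cons, List.length_append, ih]
    ring

theorem mem_copies (k : ℕ) (α : List (ℕ × Bool)) {p : ℕ × Bool}
    (h : p ∈ (List.replicate k α).flatten) : p ∈ α := by
  rw [List.mem_flatten] at h
  obtain ⟨l, hl, hp⟩ := h
  rw [List.eq_of_mem_replicate hl] at hp
  exact hp

theorem sum_get (L : List (ℕ × Bool)) (F : ℕ × Bool → ℤ) :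
    ∑ m : Fin L.length, F (L.get m) = (L.map F).sum :=
  Fin.sum_univ_fun_getElem L F

theorem hFP (hAl : PAlpha) (hFi : PFine) : PFP := by
  intro ι V _ _ _ _ vs ng q D κ B g t A A' ρ a hE hκ ha hg ht hAA' hbad hmany Y ρY k c hY hSC
    hExt hYc hk
  classical
  have hAY : A ⊆ Y := hAA'.trans hY
  have hYd : Disjoint (Y \ A) A := sdiff_disjoint
  obtain ⟨f1, f2, f3, -⟩ := Helper80.TL.hFar1 ι V vs q D κ A (Y \ A) 93 hE hYd
  -- the far indices
  set F : Finset V := univ.filter (fun i => i ∉ A ∧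
    Disjoint (Cl vs q (insert i A) \ A) (near vs A 93 (Y \ A))) with hF
  have hFmem : ∀ i, i ∈ F ↔ i ∉ A ∧
      Disjoint (Cl vs q (insert i A) \ A) (near vs A 93 (Y \ A)) := by
    intro i
    exact Iff.trans mem_filter ⟨fun h => h.2, fun h => ⟨mem_univ _, h⟩⟩
  have hFY : ∀ i ∈ F, i ∉ Y := by
    intro i hi hiY
    obtain ⟨h1, h2⟩ := (hFmem i).mp hi
    have h3 : i ∈ Y \ A := mem_sdiff.mpr ⟨hiY, h1⟩
    have h4 : i ∈ Cl vs q (insert i A) \ A := mem_sdiff.mpr ⟨mem_cl_insert i A, h1⟩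
    exact not_mem_near f3 h2 h3 h4
  -- the sets of indices with a class sum `x`
  let Q : ℕ → Finset V := fun x => F.filter (fun i =>
    ∃ σ₁, Ext vs ng q A 3 A ρ (Cl vs q (insert i A)) σ₁ ∧
      ∑ j ∈ Cl vs q (insert i A) \ A, a j * sg (σ₁ j) = (x : ℤ))
  have hQmem : ∀ x i, i ∈ Q x ↔ i ∈ F ∧
      ∃ σ₁, Ext vs ng q A 3 A ρ (Cl vs q (insert i A)) σ₁ ∧
        ∑ j ∈ Cl vs q (insert i A) \ A, a j * sg (σ₁ j) = (x : ℤ) := by
    intro x i
    exact mem_filter
  let s : ℕ → V → V → Bool := fun x i =>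
    if h : ∃ σ₁, Ext vs ng q A 3 A ρ (Cl vs q (insert i A)) σ₁ ∧
      ∑ j ∈ Cl vs q (insert i A) \ A, a j * sg (σ₁ j) = (x : ℤ) then h.choose else ρ
  have hs : ∀ x, ∀ i ∈ Q x, Ext vs ng q A 3 A ρ (Cl vs q (insert i A)) (s x i) ∧
      ∑ j ∈ Cl vs q (insert i A) \ A, a j * sg (s x i j) = (x : ℤ) := by
    intro x i hi
    have h := ((hQmem x i).mp hi).2
    have h1 : s x i = h.choose := dif_pos h
    rw [h1]
    exact h.choose_spec
  set S : Finset ℕ := (Finset.Icc 1 (3 * B)).filter (fun x => popN D B < (Q x).card) with hS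
  have hSmem : ∀ x, x ∈ S ↔ (1 ≤ x ∧ x ≤ 3 * B) ∧ popN D B < (Q x).card := by
    intro x
    rw [hS, mem_filter, Finset.mem_Icc]
  -- (i)
  have p1 : ∀ x ∈ S, 1 ≤ x ∧ x ≤ 3 * B ∧ g ∣ x := by
    intro x hx
    obtain ⟨⟨h1, h2⟩, h3⟩ := (hSmem x).mp hx
    refine ⟨h1, h2, ?_⟩
    obtain ⟨i, hi⟩ : (Q x).Nonempty := card_pos.mp (by omega)
    by_contra hno
    obtain ⟨hiF, σ₁, h4, h5⟩ := (hQmem x i).mp hi
    refine hFY i hiF (hY (hbad ?_))
    refine mem_filter.mpr ⟨mem_univ _, ((hFmem i).mp hiF).1, σ₁, h4, ?_⟩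
    rw [h5]
    intro h6
    exact hno (Int.natCast_dvd_natCast.mp h6)
  -- (ii)
  have p2 : ∀ h, 1 ≤ h → (∀ x ∈ S, h ∣ x) → h ∣ g := by
    intro h hh hall
    by_contra hno
    have h1 := hmany h hh hno
    set Bd := bad vs ng q A ρ a h with hBd
    have hBdmem : ∀ i, i ∈ Bd ↔ i ∉ A ∧ ∃ σ₁, Ext vs ng q A 3 A ρ (Cl vs q (insert i A)) σ₁ ∧
        ¬ (h : ℤ) ∣ ∑ j ∈ Cl vs q (insert i A) \ A, a j * sg (σ₁ j) := by
      intro i
      rw [hBd]
      unfold bad
      rw [mem_filter]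
      simp only [mem_univ, true_and]
    have h2 : (Bd \ F).card ≤ (near vs A 93 (Y \ A)).card * 3 := by
      refine card_meet hE hκ _ _ (fun i hi => ?_)
      obtain ⟨h3, h4⟩ := mem_sdiff.mp hi
      have h5 := ((hBdmem i).mp h3).1
      exact ⟨h5, fun h6 => h4 ((hFmem i).mpr ⟨h5, h6⟩)⟩
    have h3 : (Bd ∩ F).card ≤ 3 * B * popN D B := by
      have hsub : Bd ∩ F ⊆ ((Finset.Icc 1 (3 * B)).filter (fun x => ¬ h ∣ x)).biUnion Q := by
        intro i hi
        obtain ⟨hi1, hi2⟩ := mem_inter.mp hi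
        obtain ⟨hiA, σ₁, h4, h5⟩ := (hBdmem i).mp hi1
        set y := ∑ j ∈ Cl vs q (insert i A) \ A, a j * sg (σ₁ j) with hy
        have hyb : |y| ≤ 3 * B := by
          have h6 : |y| ≤ B * (Cl vs q (insert i A) \ A).card := sum_sg_le ha σ₁
          have h7 : (B : ℤ) * ((Cl vs q (insert i A) \ A).card : ℤ) ≤ B * 3 := by
            refine mul_le_mul_of_nonneg_left ?_ (Int.natCast_nonneg B)
            exact_mod_cast card_class_le hClo1 hE i hκ
          linarith
        have hne : y ≠ 0 := by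
          intro h6
          rw [h6] at h5
          exact h5 (dvd_zero _)
        refine mem_biUnion.mpr ⟨y.natAbs, mem_filter.mpr ⟨Finset.mem_Icc.mpr ⟨?_, ?_⟩, ?_⟩,
          (hQmem _ _).mpr ⟨hi2, ?_⟩⟩
        · exact Int.natAbs_pos.mpr hne
        · rw [Int.abs_eq_natAbs] at hyb
          exact_mod_cast hyb
        · intro h6
          exact h5 (Int.natCast_dvd.mpr h6)
        · rcases le_or_gt 0 y with h6 | h6
          · refine ⟨σ₁, h4, ?_⟩
            rw [Int.natCast_natAbs, abs_of_nonneg h6]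
          · obtain ⟨h7, h8⟩ := sum_flip hE a h4
            refine ⟨flip A σ₁, h7, ?_⟩
            rw [h8, Int.natCast_natAbs, abs_of_neg h6]
      have hc := (card_le_card hsub).trans (card_biUnion_le_card_mul _ _ (popN D B)
        (fun x hx => ?_))
      · refine hc.trans (Nat.mul_le_mul_right _ ?_)
        refine (card_filter_le _ _).trans ?_
        rw [Nat.card_Icc]
        omega
      · obtain ⟨h6, h7⟩ := mem_filter.mp hx
        by_contra hcon
        rw [not_le] at hcon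
        exact h7 (hall x ((hSmem x).mpr ⟨Finset.mem_Icc.mp h6, hcon⟩))
    have h4 : (Bd \ F).card + (Bd ∩ F).card = Bd.card := card_sdiff_add_card_inter Bd F
    have h5 : (near vs A 93 (Y \ A)).card ≤ 900 * t * (2 * D + 1) ^ 93 :=
      f1.trans (Nat.mul_le_mul_right _ hYc)
    have h6 : lamD D * t = 900 * t * (2 * D + 1) ^ 93 * 3 + t := by
      unfold lamD
      ring
    omega
  obtain ⟨α, hα1, hα2, hα3⟩ := hAl (3 * B) S g hg p1 p2
  set L := (List.replicate k α).flatten with hL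
  have hLlen : L.length ≤ fineN B := by
    rw [hL, length_copies]
    unfold fineN
    exact Nat.mul_le_mul hk hα1
  have hLmem : ∀ m : Fin L.length, (L.get m).1 ∈ S := by
    intro m
    exact hα2 _ (mem_copies k α (List.get_mem L m))
  obtain ⟨i, R, σ, hi, hR, hval⟩ := hFi ι V vs ng q D κ L.length A Y ρY
    (fun m => Q (L.get m).1) (fun m => s (L.get m).1) (fun m => (L.get m).2) hE hκ hAY hSC
    (fun m i hi => by
      obtain ⟨h1, -⟩ := (hQmem _ _).mp hi
      obtain ⟨h2, h3⟩ := (hFmem i).mp h1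
      exact ⟨h2, h3, (hs _ i hi).1.2.2.2.2⟩)
    (fun m => by
      have h1 := ((hSmem _).mp (hLmem m)).2
      refine lt_of_le_of_lt ?_ h1
      unfold popN
      exact Nat.mul_le_mul_left 9 (Nat.mul_le_mul_right _ hLlen))
  refine ⟨R, σ, Ext.mono (by omega) hR, ?_⟩
  rw [hval a c]
  congr 1
  have h1 : ∀ m : Fin L.length, sg (L.get m).2 *
      ∑ j ∈ Cl vs q (insert (i m) A) \ A, a j * sg (s (L.get m).1 (i m) j) =
      (fun p : ℕ × Bool => sg p.2 * (p.1 : ℤ)) (L.get m) := by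
    intro m
    rw [(hs _ (i m) (hi m)).2]
  rw [Finset.sum_congr rfl (fun m _ => h1 m)]
  refine (sum_get L (fun p : ℕ × Bool => sg p.2 * (p.1 : ℤ))).trans ?_
  rw [hL, sum_copies, hα3]

end Helper8.TP

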